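import Pool.Agent.TH659.HY.Poly

/-!
# A derivative of a rational function has no simple poles
-/

set_option autoImplicit false

open Polynomial

namespace Pool.Agent.TH659.HY

theorem simple_aux {r : ℕ} (x e : Fin r → ℝ) (hx : Function.Injective x) (P Q : ℝ[X]) (hPQ : IsCoprime P Q)
    (h : (derivative P * Q - P * derivative Q) * ∏ i, (X + C (x i)) =
      Q * Q * ∑ i, C (e i) * ∏ j ∈ Finset.univ.erase i, (X + C (x j))) (hQ : Q ≠ 0) (i : Fin r) : e i = 0 := by
  classical
  set M : ℝ[X] := ∏ j ∈ Finset.univ.erase i, (X + C (x j)) with hM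
  have hprod : ∏ j, (X + C (x j)) = (X + C (x i)) * M := (Finset.mul_prod_erase _ _ (Finset.mem_univ i)).symm
  have hMi : M.eval (-(x i)) ≠ 0 := by
    rw [hM, eval_prod]
    refine Finset.prod_ne_zero_iff.2 fun j hj => ?_
    rw [eval_add, eval_X, eval_C]
    intro h0
    exact (Finset.ne_of_mem_erase hj) (hx (by linarith))
  have hroot : ∀ p : ℝ[X], (X + C (x i)) ∣ p ↔ p.eval (-(x i)) = 0 := by
    intro p
    have h1 : (X + C (x i) : ℝ[X]) = X - C (-(x i)) := by rw [C_neg, sub_neg_eq_add]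
    rw [h1, dvd_iff_isRoot]
    rfl
  have hπ : Prime (X + C (x i) : ℝ[X]) := by
    have h1 : (X + C (x i) : ℝ[X]) = X - C (-(x i)) := by rw [C_neg, sub_neg_eq_add]
    rw [h1]
    exact prime_X_sub_C _
  have hQi : ¬ (X + C (x i)) ∣ Q := by
    intro hd
    have hPi : ¬ (X + C (x i)) ∣ P := by
      intro hd2
      obtain ⟨u, v, huv⟩ := hPQ
      exact hπ.not_unit (isUnit_of_dvd_one (huv ▸ dvd_add (hd2.mul_left u) (hd.mul_left v)))
    obtain ⟨k, R, hR, hQR⟩ := WfDvdMonoid.max_power_factor hQ hπ.irreducible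
    have hk : k ≠ 0 := by
      rintro rfl
      apply hR
      rw [pow_zero, one_mul] at hQR
      rw [← hQR]
      exact hd
    obtain ⟨j, rfl⟩ := Nat.exists_eq_succ_of_ne_zero hk
    have hQ' : derivative Q = (X + C (x i)) ^ j * (((j : ℝ[X]) + 1) * R + (X + C (x i)) * derivative R) := by
      rw [hQR, derivative_mul, derivative_pow]
      simp only [Nat.succ_eq_add_one, Nat.add_sub_cancel, derivative_add, derivative_X, derivative_C, add_zero]
      push_cast
      simp only [map_add, map_natCast, map_one]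
      ring
    have h1 : (X + C (x i)) ^ (j + 1) * ((X + C (x i)) * (derivative P * R * M - P * derivative R * M) -
        P * ((j : ℝ[X]) + 1) * R * M) =
        (X + C (x i)) ^ (j + 1) * ((X + C (x i)) * ((X + C (x i)) ^ j * R * R *
          ∑ i, C (e i) * ∏ j ∈ Finset.univ.erase i, (X + C (x j)))) := by
      have h2 := h
      rw [hprod, hQ', hQR] at h2
      simp only [Nat.succ_eq_add_one] at h2
      linear_combination h2
    have h3 := mul_left_cancel₀ (pow_ne_zero (j + 1) hπ.ne_zero) h1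
    have h4 : (X + C (x i)) ∣ P * ((j : ℝ[X]) + 1) * R * M := by
      refine ⟨(derivative P * R * M - P * derivative R * M) - (X + C (x i)) ^ j * R * R *
          ∑ i, C (e i) * ∏ j ∈ Finset.univ.erase i, (X + C (x j)), ?_⟩
      linear_combination (-1 : ℝ[X]) * h3
    rcases hπ.dvd_or_dvd h4 with h5 | h5
    · rcases hπ.dvd_or_dvd h5 with h6 | h6
      · rcases hπ.dvd_or_dvd h6 with h7 | h7
        · exact hPi h7
        · rw [hroot] at h7
          simp at h7
          have : (0 : ℝ) ≤ j := Nat.cast_nonneg j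
          linarith
      · exact hR h6
    · exact hMi ((hroot M).1 h5)
  have h1 := congrArg (eval (-(x i))) h
  rw [hprod] at h1
  simp only [eval_mul, eval_add, eval_X, eval_C, eval_sub, neg_add_cancel, zero_mul, mul_zero] at h1
  have h2 : Q.eval (-(x i)) ≠ 0 := fun h0 => hQi ((hroot Q).2 h0)
  have h3 : (∑ i, C (e i) * ∏ j ∈ Finset.univ.erase i, (X + C (x j))).eval (-(x i)) = e i * M.eval (-(x i)) := by
    rw [eval_finsetSum, Finset.sum_eq_single i]
    · rw [eval_mul, eval_C]
    · intro k _ hk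
      rw [eval_mul, eval_prod, Finset.prod_eq_zero (i := i) (Finset.mem_erase.2 ⟨hk.symm, Finset.mem_univ _⟩), mul_zero]
      simp
    · simp
  rw [h3] at h1
  have h4 := h1.symm
  rcases mul_eq_zero.1 h4 with h5 | h5
  · exact absurd h5 (mul_ne_zero h2 h2)
  · rcases mul_eq_zero.1 h5 with h6 | h6
    · exact h6
    · exact absurd h6 hMi

theorem simple {r : ℕ} (x e : Fin r → ℝ) (hx : Function.Injective x) (P Q : ℝ[X]) (hQ : Q ≠ 0)
    (h : (derivative P * Q - P * derivative Q) * ∏ i, (X + C (x i)) =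
      Q * Q * ∑ i, C (e i) * ∏ j ∈ Finset.univ.erase i, (X + C (x j))) : e = 0 := by
  classical
  obtain ⟨g, P1, Q1, hg0, hco, rfl, rfl⟩ : ∃ g P1 Q1 : ℝ[X], g ≠ 0 ∧ IsCoprime P1 Q1 ∧ P = g * P1 ∧ Q = g * Q1 := by
    have hg0 : EuclideanDomain.gcd P Q ≠ 0 := by
      intro h0
      exact hQ ((EuclideanDomain.gcd_eq_zero_iff.1 h0).2)
    obtain ⟨P1, hP1⟩ := EuclideanDomain.gcd_dvd_left P Q
    obtain ⟨Q1, hQ1⟩ := EuclideanDomain.gcd_dvd_right P Q
    refine ⟨_, P1, Q1, hg0, ?_, hP1, hQ1⟩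
    have hb := EuclideanDomain.gcd_eq_gcd_ab P Q
    refine ⟨EuclideanDomain.gcdA P Q, EuclideanDomain.gcdB P Q, ?_⟩
    apply mul_left_cancel₀ hg0
    calc EuclideanDomain.gcd P Q * (EuclideanDomain.gcdA P Q * P1 + EuclideanDomain.gcdB P Q * Q1) =
          (EuclideanDomain.gcd P Q * P1) * EuclideanDomain.gcdA P Q +
          (EuclideanDomain.gcd P Q * Q1) * EuclideanDomain.gcdB P Q := by ring
      _ = P * EuclideanDomain.gcdA P Q + Q * EuclideanDomain.gcdB P Q := by rw [← hP1, ← hQ1]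
      _ = EuclideanDomain.gcd P Q * 1 := by rw [mul_one]; exact hb.symm
  have hQ1 : Q1 ≠ 0 := right_ne_zero_of_mul hQ
  funext i
  refine simple_aux x e hx P1 Q1 hco ?_ hQ1 i
  apply mul_left_cancel₀ (mul_ne_zero hg0 hg0)
  rw [derivative_mul, derivative_mul] at h
  linear_combination h

end Pool.Agent.TH659.HY
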