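import Pool.Agent.TH659.HY.Fld
import Pool.Agent.TH659.HY.Poly2

/-!
# Ostrowski's theorem for hyperelliptic integrals and logarithms together
-/

set_option autoImplicit false

open Polynomial

namespace Pool.Agent.TH659.HY

variable {E : Type} [Field E] [Algebra ℝ E] {f : ℝ[X]} {D : Derivation ℝ E E} {τ S : E}

theorem indepL (h : Data f D τ S) (hconst : ∀ x : E, D x = 0 → ∃ c : ℝ, algebraMap ℝ E c = x) [CharZero E] (k r : ℕ)
    (hk : k + 1 ≤ f.natDegree) (x : Fin r → ℝ) (hx : Function.Injective x) (y : Fin k ⊕ Fin r → E)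
    (hy : ∀ i : Fin k, D (y (Sum.inl i)) * S = aeval τ (X ^ (i : ℕ) : ℝ[X]))
    (hz : ∀ i : Fin r, D (y (Sum.inr i)) * aeval τ (X + C (x i)) = 1) :
    AlgebraicIndependent (Fd h) y := by
  classical
  have hw : ∀ i, D (y i) ∈ Fd h := by
    rintro (i | i)
    · have h1 : D (y (Sum.inl i)) = aeval τ (X ^ (i : ℕ) : ℝ[X]) * S⁻¹ := by
        rw [← hy i, mul_assoc, mul_inv_cancel₀ (S_ne h), mul_one]
      rw [h1]
      exact mul_mem (poly_mem h _) (inv_mem (S_mem h))
    · have h1 : D (y (Sum.inr i)) = (aeval τ (X + C (x i)))⁻¹ := eq_inv_of_mul_eq_one_left (hz i)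
      rw [h1]
      exact inv_mem (poly_mem h _)
  refine Pool.Agent.W253.LF.t_OST ℝ (Fd h) E (DF h) D (fun x => rfl) hconst (Fin k ⊕ Fin r) y
    (fun i => ⟨D (y i), hw i⟩) (fun i => rfl) ?_
  intro c g hg
  obtain ⟨A, B, Q, hQ, hg1⟩ := g.2
  set W : ℝ[X] := ∑ i : Fin k, C (c (Sum.inl i)) * X ^ (i : ℕ) with hWdef
  set V : ℝ[X] := ∑ i : Fin r, C (c (Sum.inr i)) * ∏ j ∈ Finset.univ.erase i, (X + C (x j)) with hVdef
  set R : ℝ[X] := ∏ i : Fin r, (X + C (x i)) with hRdef
  have hR0 : R ≠ 0 := by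
    rw [hRdef]
    exact Finset.prod_ne_zero_iff.2 fun i _ => (monic_X_add_C (x i)).ne_zero
  have hWsum : (∑ i : Fin k, algebraMap ℝ E (c (Sum.inl i)) * D (y (Sum.inl i))) * S = aeval τ W := by
    rw [Finset.sum_mul, hWdef, map_sum]
    refine Finset.sum_congr rfl fun i _ => ?_
    rw [mul_assoc, hy i, map_mul, aeval_C]
  have hVsum : (∑ i : Fin r, algebraMap ℝ E (c (Sum.inr i)) * D (y (Sum.inr i))) * aeval τ R = aeval τ V := by
    rw [Finset.sum_mul, hVdef, map_sum]
    refine Finset.sum_congr rfl fun i _ => ?_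
    have h1 : R = (X + C (x i)) * ∏ j ∈ Finset.univ.erase i, (X + C (x j)) :=
      (Finset.mul_prod_erase _ _ (Finset.mem_univ i)).symm
    rw [h1, map_mul, map_mul, aeval_C]
    linear_combination (algebraMap ℝ E (c (Sum.inr i)) * aeval τ (∏ j ∈ Finset.univ.erase i, (X + C (x j)))) * hz i
  have h1 : D (g : E) * S * aeval τ R = aeval τ W * aeval τ R + S * aeval τ V := by
    have h2 : (g : E) = ∑ i, algebraMap ℝ E (c i) * y i := hg.symm
    have h3 : D (g : E) = (∑ i : Fin k, algebraMap ℝ E (c (Sum.inl i)) * D (y (Sum.inl i))) +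
        ∑ i : Fin r, algebraMap ℝ E (c (Sum.inr i)) * D (y (Sum.inr i)) := by
      rw [h2, map_sum, Fintype.sum_sum_type]
      congr 1
      · refine Finset.sum_congr rfl fun i _ => ?_
        rw [Derivation.leibniz, Derivation.map_algebraMap, smul_zero, add_zero, smul_eq_mul]
      · refine Finset.sum_congr rfl fun i _ => ?_
        rw [Derivation.leibniz, Derivation.map_algebraMap, smul_zero, add_zero, smul_eq_mul]
    rw [h3, ← hWsum, ← hVsum]
    ring
  have h2 := D_rep h g A B Q hg1
  have h3 := sep h (R * (f * (2 * f * (derivative B * Q - B * derivative Q) + B * derivative f * Q)) -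
      2 * f * Q * Q * W * R)
    (R * (2 * f * (derivative A * Q - A * derivative Q)) - 2 * f * Q * Q * V) (by
      simp only [map_mul, map_sub, map_add, map_ofNat] at h2 ⊢
      rw [← h.SS]
      rw [← h.SS] at h2
      linear_combination (-S * aeval τ R) * h2 + (2 * (S * S) * aeval τ Q * aeval τ Q) * h1)
  have h4 : 2 * f * (derivative B * Q - B * derivative Q) + B * derivative f * Q = 2 * Q * Q * W := by
    apply mul_left_cancel₀ (mul_ne_zero hR0 (f_ne h))
    linear_combination h3.1
  have h5 : (derivative A * Q - A * derivative Q) * R = Q * Q * V := by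
    apply mul_left_cancel₀ (mul_ne_zero (two_ne_zero (α := ℝ[X])) (f_ne h))
    linear_combination h3.2
  have he := simple x (fun i => c (Sum.inr i)) hx A Q hQ h5
  have hWd : W.natDegree + 2 ≤ f.natDegree ∨ k = 0 := by
    rcases Nat.eq_zero_or_pos k with h0 | h0
    · exact Or.inr h0
    · left
      have : W.natDegree ≤ k - 1 := by
        refine natDegree_sum_le_of_forall_le _ _ fun i _ => ?_
        refine (natDegree_C_mul_X_pow_le _ _).trans ?_
        have := i.2
        omega
      omega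
  have hc : ∀ i : Fin k, c (Sum.inl i) = 0 := by
    rcases hWd with hWd | h0
    · have hW0 := key h.sf B Q W hQ hWd h4
      intro i
      have h5 : W.coeff i = c (Sum.inl i) := by
        rw [hWdef, finsetSum_coeff, Finset.sum_eq_single i]
        · simp
        · intro j _ hj
          rw [coeff_C_mul, coeff_X_pow, if_neg, mul_zero]
          intro h6
          exact hj (Fin.ext h6.symm)
        · simp
      rw [← h5, hW0]
      simp
    · subst h0
      intro i
      exact i.elim0
  funext p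
  rcases p with i | i
  · exact hc i
  · exact congrFun he i

theorem indepL' (h : Data f D τ S) (hconst : ∀ x : E, D x = 0 → ∃ c : ℝ, algebraMap ℝ E c = x) [CharZero E]
    (k r d : ℕ) (hk : k + 1 ≤ f.natDegree) (x : Fin r → ℝ) (hx : Function.Injective x) (y : Fin k ⊕ Fin r → E)
    (hy : ∀ i : Fin k, D (y (Sum.inl i)) * S = aeval τ (X ^ (i : ℕ) : ℝ[X]))
    (hz : ∀ i : Fin r, D (y (Sum.inr i)) * aeval τ (X + C (x i)) = 1)
    (p : (Fin k ⊕ Fin r → Fin (d + 1)) → ℝ[X]) (hp : ∑ e, aeval τ (p e) * ∏ i, y i ^ (e i : ℕ) = 0) : p = 0 := by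
  classical
  have hind := indepL h hconst k r hk x hx y hy hz
  let F := Fd h
  let fs : (Fin k ⊕ Fin r → Fin (d + 1)) → (Fin k ⊕ Fin r →₀ ℕ) := fun e =>
    Finsupp.equivFunOnFinite.symm fun i => (e i : ℕ)
  have hfs : Function.Injective fs := by
    intro e e' hee
    funext i
    have := DFunLike.congr_fun hee i
    exact Fin.ext (by simpa [fs] using this)
  have h1 : MvPolynomial.aeval y (∑ e, MvPolynomial.monomial (fs e) (⟨aeval τ (p e), poly_mem h _⟩ : F)) = 0 := by
    rw [map_sum, ← hp]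
    refine Finset.sum_congr rfl fun e _ => ?_
    rw [MvPolynomial.aeval_monomial, Finsupp.prod_fintype _ _ (fun _ => pow_zero _)]
    rfl
  have h2 : (∑ e, MvPolynomial.monomial (fs e) (⟨aeval τ (p e), poly_mem h _⟩ : F)) = 0 :=
    hind.eq_zero_of_aeval_eq_zero _ h1
  funext e
  have h3 := congrArg (MvPolynomial.coeff (fs e)) h2
  rw [MvPolynomial.coeff_sum, Finset.sum_eq_single e] at h3
  · rw [MvPolynomial.coeff_monomial, if_pos rfl, MvPolynomial.coeff_zero] at h3
    exact h.tr _ (congrArg Subtype.val h3)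
  · intro e' _ he'
    rw [MvPolynomial.coeff_monomial, if_neg]
    intro h4
    exact he' (hfs h4)
  · simp

end Pool.Agent.TH659.HY
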