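import Pool.Agent.TH659.HY.Fld
import Pool.Agent.W924.LF.Germ
import Pool.Agent.TH818.AP.LiLoc
import Pool.Agent.TH659.AQ.Mixed

/-!
# Hyperelliptic integrals: functional independence
-/

set_option autoImplicit false

open Set Filter Topology Polynomial

namespace Pool.Agent.TH659.HY

open Pool.Agent.TH818.AR Pool.Agent.TH818.AP

/-- the integrals -/
noncomputable def HI (f : ℝ[X]) (c : ℝ) (i : ℕ) (t : ℝ) : ℝ := ∫ s in c..t, s ^ i / √(f.eval s)

theorem pos_near (f : ℝ[X]) {t : ℝ} (h : 0 < f.eval t) : ∀ᶠ s in 𝓝 t, 0 < f.eval s :=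
  f.continuous.continuousAt.eventually (lt_mem_nhds h)

theorem an_int (f : ℝ[X]) (i : ℕ) {t : ℝ} (h : 0 < f.eval t) :
    AnalyticAt ℝ (fun s => s ^ i / √(f.eval s)) t := by
  have h1 : AnalyticAt ℝ (fun s => f.eval s) t := AnalyticOnNhd.eval_polynomial f t (mem_univ _)
  have h2 : AnalyticAt ℝ (fun s => √(f.eval s)) t := by
    have h3 : AnalyticAt ℝ (fun s => Real.exp (Real.log (f.eval s) / 2)) t :=
      ((h1.log h).div_const).rexp
    refine h3.congr ?_
    filter_upwards [pos_near f h] with s hs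
    rw [Real.sqrt_eq_rpow, Real.rpow_def_of_pos hs]
    ring_nf
  exact (analyticAt_id.pow i).div h2 (Real.sqrt_pos.2 h).ne'

theorem sqrt_an (f : ℝ[X]) {t : ℝ} (h : 0 < f.eval t) : AnalyticAt ℝ (fun s => √(f.eval s)) t := by
  have h1 : AnalyticAt ℝ (fun s => f.eval s) t := AnalyticOnNhd.eval_polynomial f t (mem_univ _)
  have h3 : AnalyticAt ℝ (fun s => Real.exp (Real.log (f.eval s) / 2)) t :=
    ((h1.log h).div_const).rexp
  refine h3.congr ?_
  filter_upwards [pos_near f h] with s hs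
  rw [Real.sqrt_eq_rpow, Real.rpow_def_of_pos hs]
  ring_nf

/-- a neighbourhood of `[a, b]` on which `f` is positive -/
theorem enlarge (f : ℝ[X]) (a b : ℝ) (hab : a ≤ b) (h : ∀ t ∈ Icc a b, 0 < f.eval t) :
    ∃ ε : ℝ, 0 < ε ∧ ∀ t ∈ Icc (a - ε) (b + ε), 0 < f.eval t := by
  have hopen : IsOpen {t : ℝ | 0 < f.eval t} := isOpen_lt continuous_const f.continuous
  obtain ⟨ε, hε, hsub⟩ := isCompact_Icc.exists_cthickening_subset_open hopen (fun t ht => h t ht)
  refine ⟨ε, hε, fun t ht => ?_⟩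
  apply hsub
  rcases lt_trichotomy t a with h1 | h1 | h1
  · exact Metric.mem_cthickening_of_dist_le t a ε _ ⟨le_rfl, hab⟩ (by
      rw [Real.dist_eq, abs_of_neg (by linarith)]; linarith [ht.1])
  · subst h1
    exact Metric.self_subset_cthickening _ ⟨le_rfl, hab⟩
  · rcases le_or_gt t b with h2 | h2
    · exact Metric.self_subset_cthickening _ ⟨h1.le, h2⟩
    · exact Metric.mem_cthickening_of_dist_le t b ε _ ⟨hab, le_rfl⟩ (by
        rw [Real.dist_eq, abs_of_pos (by linarith)]; linarith [ht.2])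

theorem HI_deriv (f : ℝ[X]) (a b : ℝ) (h : ∀ t ∈ Ioo a b, 0 < f.eval t) (c : ℝ) (hc : c ∈ Ioo a b) (i : ℕ)
    (t : ℝ) (ht : t ∈ Ioo a b) : HasDerivAt (HI f c i) (t ^ i / √(f.eval t)) t := by
  have hcont : ContinuousOn (fun s => s ^ i / √(f.eval s)) (Ioo a b) := fun s hs =>
    (an_int f i (h s hs)).continuousAt.continuousWithinAt
  have hsub : uIcc c t ⊆ Ioo a b := (ordConnected_Ioo.uIcc_subset hc ht)
  refine intervalIntegral.integral_hasDerivAt_right ((hcont.mono hsub).intervalIntegrable) ?_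
    (an_int f i (h t ht)).continuousAt
  exact hcont.stronglyMeasurableAtFilter isOpen_Ioo t ht

theorem HI_an (f : ℝ[X]) (a b : ℝ) (h : ∀ t ∈ Ioo a b, 0 < f.eval t) (c : ℝ) (hc : c ∈ Ioo a b) (i : ℕ)
    (t : ℝ) (ht : t ∈ Ioo a b) : AnalyticAt ℝ (HI f c i) t := by
  obtain ⟨G, hG, hGd⟩ := Pool.Agent.TH818.AP.LiLoc.primitive (an_int f i (h t ht))
  have h1 : ∀ᶠ s in 𝓝 t, HasDerivAt G (s ^ i / √(f.eval s)) s ∧ s ∈ Ioo a b := hGd.and (Ioo_mem_nhds ht.1 ht.2)
  obtain ⟨r, hr, hball⟩ := Metric.eventually_nhds_iff_ball.1 h1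
  have hd : ∀ s ∈ Metric.ball t r, HasDerivAt (fun s => HI f c i s - G s) 0 s := by
    intro s hs
    have h2 := (HI_deriv f a b h c hc i s (hball s hs).2).sub (hball s hs).1
    rwa [sub_self] at h2
  have hconst : ∀ s ∈ Metric.ball t r, HI f c i s - G s = HI f c i t - G t := by
    intro s hs
    exact Metric.isOpen_ball.is_const_of_deriv_eq_zero (Metric.isPreconnected_ball)
      (fun s hs => (hd s hs).differentiableAt.differentiableWithinAt) (fun s hs => (hd s hs).deriv) hs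
      (Metric.mem_ball_self hr)
  have h3 : (fun s => G s + (HI f c i t - G t)) =ᶠ[𝓝 t] HI f c i := by
    filter_upwards [Metric.ball_mem_nhds t hr] with s hs
    have := hconst s hs
    linarith
  exact (hG.add analyticAt_const).congr h3

/-- functional independence -/
theorem HI_ind (f : ℝ[X]) (hf : Squarefree f) (k d : ℕ) (hk : k + 1 ≤ f.natDegree) (a b : ℝ) (hab : a < b)
    (h : ∀ t ∈ Icc a b, 0 < f.eval t) (c : ℝ) (hc : c ∈ Icc a b) :
    RIndep (fun (e : Fin k → Fin (d + 1)) (t : ℝ) => ∏ i : Fin k, HI f c (i : ℕ) t ^ (e i : ℕ)) a b := by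
  classical
  intro p hp
  obtain ⟨ε, hε, hpos⟩ := enlarge f a b hab.le h
  have hpos' : ∀ t ∈ Ioo (a - ε) (b + ε), 0 < f.eval t := fun t ht => hpos t ⟨ht.1.le, ht.2.le⟩
  have hc' : c ∈ Ioo (a - ε) (b + ε) := ⟨by linarith [hc.1], by linarith [hc.2]⟩
  obtain ⟨t0, ht0⟩ : ∃ t0, t0 ∈ Ioo a b := ⟨(a + b) / 2, by constructor <;> linarith⟩
  have ht0' : t0 ∈ Ioo (a - ε) (b + ε) := ⟨by linarith [ht0.1], by linarith [ht0.2]⟩
  obtain ⟨E, _, _, D, T, hconst, hTc, hTadd, hTmul, hTder, hTinj, hTcongr⟩ := Pool.Agent.W924.LF.t_GERM ℝ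
  have : CharZero E := charZero_of_injective_algebraMap (algebraMap ℝ E).injective
  -- the ring of analytic functions
  let A : Subring (ℝ → ℝ) :=
    { carrier := {g | AnalyticAt ℝ g 0}
      mul_mem' := fun hf hg => hf.mul hg
      one_mem' := analyticAt_const
      add_mem' := fun hf hg => hf.add hg
      zero_mem' := analyticAt_const
      neg_mem' := fun hf => hf.neg }
  let Th : A →+* E :=
    { toFun := fun g => T g.1
      map_one' := by
        have := hTc 1
        rw [map_one] at this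
        exact this
      map_mul' := fun g g' => hTmul g.1 g'.1 g.2 g'.2
      map_zero' := by
        have := hTc 0
        rw [map_zero] at this
        exact this
      map_add' := fun g g' => hTadd g.1 g'.1 g.2 g'.2 }
  have hsh : ∀ g : ℝ → ℝ, AnalyticAt ℝ g t0 → AnalyticAt ℝ (fun s => g (t0 + s)) 0 := by
    intro g hg
    have h1 : AnalyticAt ℝ (fun s : ℝ => t0 + s) 0 := analyticAt_const.add analyticAt_id
    have h2 : AnalyticAt ℝ g (t0 + 0) := by rwa [add_zero]
    exact AnalyticAt.comp (g := g) (f := fun s : ℝ => t0 + s) h2 h1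
  have hmap : Tendsto (fun s : ℝ => t0 + s) (𝓝 0) (𝓝 t0) := by
    have h1 : Continuous fun s : ℝ => t0 + s := by fun_prop
    have := h1.tendsto 0
    rwa [add_zero] at this
  have hmap' : Tendsto (fun t : ℝ => t - t0) (𝓝 t0) (𝓝 0) := by
    have h1 : Continuous fun s : ℝ => s - t0 := by fun_prop
    have := h1.tendsto t0
    rwa [sub_self] at this
  set τ : E := T (fun s => t0 + s) with hτ
  set S : E := T (fun s => √(f.eval (t0 + s))) with hS
  have hpolyan : ∀ P : ℝ[X], AnalyticAt ℝ (fun s => P.eval (t0 + s)) 0 := fun P =>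
    hsh _ (AnalyticOnNhd.eval_polynomial P t0 (mem_univ _))
  have hid : AnalyticAt ℝ (fun s : ℝ => t0 + s) 0 := analyticAt_const.add analyticAt_id
  have hpoly : ∀ P : ℝ[X], T (fun s => P.eval (t0 + s)) = aeval τ P := by
    intro P
    induction P using Polynomial.induction_on with
    | C x => simp only [eval_C, aeval_C]; exact hTc x
    | add P Q hP hQ =>
      simp only [eval_add, map_add]
      rw [hTadd _ _ (hpolyan P) (hpolyan Q), hP, hQ]
    | monomial n x ih =>
      have h1 : (fun s => (C x * X ^ (n + 1)).eval (t0 + s)) = fun s => (C x * X ^ n).eval (t0 + s) * (t0 + s) := by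
        funext s
        rw [pow_succ, ← mul_assoc, eval_mul, eval_X]
      rw [h1, hTmul _ _ (hpolyan _) hid, ih, pow_succ, ← mul_assoc, map_mul _ _ X, aeval_X]
  have hSan : AnalyticAt ℝ (fun s => √(f.eval (t0 + s))) 0 := hsh _ (sqrt_an f (hpos' t0 ht0'))
  have hyan : ∀ i : ℕ, AnalyticAt ℝ (fun s => HI f c i (t0 + s)) 0 := fun i =>
    hsh _ (HI_an f _ _ hpos' c hc' i t0 ht0')
  have hnear : ∀ᶠ s in 𝓝 (0 : ℝ), t0 + s ∈ Ioo a b := hmap.eventually (Ioo_mem_nhds ht0.1 ht0.2)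
  have hdata : Data f D τ S := by
    refine ⟨?_, ?_, ?_, hf, by omega⟩
    · intro Q hQ
      rw [← hpoly] at hQ
      have h1 := hTinj _ (hpolyan Q) hQ
      have h2 : ∀ᶠ t in 𝓝 t0, Q.eval t = 0 := by
        filter_upwards [hmap'.eventually h1] with t ht
        simpa using ht
      exact Polynomial.eq_zero_of_infinite_isRoot Q (infinite_of_mem_nhds t0 h2)
    · rw [hτ, ← hTder _ hid]
      have h1 : deriv (fun s : ℝ => t0 + s) = fun _ => 1 := by
        funext s
        simp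
      rw [h1, hTc, map_one]
    · rw [hS, ← hTmul _ _ hSan hSan, ← hpoly]
      apply hTcongr
      filter_upwards [hnear] with s hs
      exact Real.mul_self_sqrt (h _ ⟨hs.1.le, hs.2.le⟩).le
  let y : Fin k → E := fun i => T (fun s => HI f c (i : ℕ) (t0 + s))
  have hy : ∀ i, D (y i) * S = aeval τ (X ^ (i : ℕ) : ℝ[X]) := by
    intro i
    show D (T (fun s => HI f c (i : ℕ) (t0 + s))) * S = _
    rw [← hTder _ (hyan i), hS, ← hTmul _ _ (hyan i).deriv hSan, ← hpoly]
    apply hTcongr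
    filter_upwards [hnear] with s hs
    have hs' : t0 + s ∈ Ioo (a - ε) (b + ε) := ⟨by linarith [hs.1], by linarith [hs.2]⟩
    have h1 : HasDerivAt (fun s => HI f c (i : ℕ) (t0 + s)) ((t0 + s) ^ (i : ℕ) / √(f.eval (t0 + s))) s := by
      have h2 := HI_deriv f _ _ hpos' c hc' i (t0 + s) hs'
      exact h2.comp_const_add t0 s
    rw [h1.deriv, eval_pow, eval_X]
    have h3 : √(f.eval (t0 + s)) ≠ 0 := (Real.sqrt_pos.2 (hpos' _ hs')).ne'
    field_simp
  refine indep' hdata hconst k d hk y hy p ?_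
  -- the relation
  let P : (Fin k → Fin (d + 1)) → A := fun e => ⟨fun s => (p e).eval (t0 + s), hpolyan _⟩
  let Y : Fin k → A := fun i => ⟨fun s => HI f c (i : ℕ) (t0 + s), hyan i⟩
  have h1 : Th (∑ e, P e * ∏ i, Y i ^ (e i : ℕ)) = ∑ e, aeval τ (p e) * ∏ i, y i ^ (e i : ℕ) := by
    rw [map_sum]
    refine Finset.sum_congr rfl fun e _ => ?_
    rw [map_mul, map_prod]
    simp only [map_pow]
    rw [← hpoly]
    rfl
  rw [← h1]
  have h2 : ((∑ e, P e * ∏ i, Y i ^ (e i : ℕ) : A) : ℝ → ℝ) =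
      fun s => ∑ e, (p e).eval (t0 + s) * ∏ i : Fin k, HI f c (i : ℕ) (t0 + s) ^ (e i : ℕ) := by
    rw [AddSubmonoidClass.coe_finsetSum]
    funext s
    rw [Finset.sum_apply]
    refine Finset.sum_congr rfl fun e _ => ?_
    rw [Subring.coe_mul, SubmonoidClass.coe_finsetProd, Pi.mul_apply, Finset.prod_apply]
    rfl
  show T ((∑ e, P e * ∏ i, Y i ^ (e i : ℕ) : A) : ℝ → ℝ) = 0
  rw [h2]
  have h3 := hTc 0
  rw [map_zero] at h3
  rw [← h3]
  apply hTcongr
  filter_upwards [hnear] with s hs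
  exact hp _ ⟨hs.1.le, hs.2.le⟩

end Pool.Agent.TH659.HY
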