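import Pool.Agent.TH659.HY.Fun
import Pool.Agent.TH659.HY.Fld2

/-!
# Hyperelliptic integrals and logarithms: functional independence
-/

set_option autoImplicit false

open Set Filter Topology Polynomial

namespace Pool.Agent.TH659.HY

open Pool.Agent.TH818.AR Pool.Agent.TH818.AP

/-- the functions -/
noncomputable def UL {k r : ℕ} (f : ℝ[X]) (c : ℝ) (x : Fin r → ℝ) (p : Fin k ⊕ Fin r) (t : ℝ) : ℝ :=
  match p with
  | Sum.inl i => HI f c (i : ℕ) t
  | Sum.inr i => Real.log (t + x i)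

theorem UL_an {k r : ℕ} (f : ℝ[X]) (a b : ℝ) (h : ∀ t ∈ Ioo a b, 0 < f.eval t) (c : ℝ) (hc : c ∈ Ioo a b)
    (x : Fin r → ℝ) (t : ℝ) (ht : t ∈ Ioo a b) (hx : ∀ i, 0 < t + x i) (p : Fin k ⊕ Fin r) :
    AnalyticAt ℝ (UL f c x p) t := by
  rcases p with i | i
  · exact HI_an f a b h c hc i t ht
  · exact (analyticAt_id.add analyticAt_const).log (hx i)

/-- functional independence -/
theorem UL_ind (f : ℝ[X]) (hf : Squarefree f) (k r d : ℕ) (hk : k + 1 ≤ f.natDegree) (a b : ℝ) (hab : a < b)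
    (h : ∀ t ∈ Icc a b, 0 < f.eval t) (c : ℝ) (hc : c ∈ Icc a b) (x : Fin r → ℝ) (hx : Function.Injective x)
    (hxa : ∀ i, 0 < a + x i) :
    RIndep (fun (e : Fin k ⊕ Fin r → Fin (d + 1)) (t : ℝ) => ∏ i, UL (k := k) f c x i t ^ (e i : ℕ)) a b := by
  classical
  intro p hp
  obtain ⟨ε, hε, hpos⟩ := enlarge f a b hab.le h
  have hpos' : ∀ t ∈ Ioo (a - ε) (b + ε), 0 < f.eval t := fun t ht => hpos t ⟨ht.1.le, ht.2.le⟩
  have hc' : c ∈ Ioo (a - ε) (b + ε) := ⟨by linarith [hc.1], by linarith [hc.2]⟩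
  obtain ⟨t0, ht0⟩ : ∃ t0, t0 ∈ Ioo a b := ⟨(a + b) / 2, by constructor <;> linarith⟩
  have ht0' : t0 ∈ Ioo (a - ε) (b + ε) := ⟨by linarith [ht0.1], by linarith [ht0.2]⟩
  obtain ⟨E, _, _, D, T, hconst, hTc, hTadd, hTmul, hTder, hTinj, hTcongr⟩ := Pool.Agent.W924.LF.t_GERM ℝ
  have : CharZero E := charZero_of_injective_algebraMap (algebraMap ℝ E).injective
  -- the ring of analytic functions
  let A : Subring (ℝ → ℝ) :=
    { carrier := {g | AnalyticAt ℝ g 0}
      mul_mem' := fun hf hg => hf.mul hg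
      one_mem' := analyticAt_const
      add_mem' := fun hf hg => hf.add hg
      zero_mem' := analyticAt_const
      neg_mem' := fun hf => hf.neg }
  let Th : A →+* E :=
    { toFun := fun g => T g.1
      map_one' := by
        have := hTc 1
        rw [map_one] at this
        exact this
      map_mul' := fun g g' => hTmul g.1 g'.1 g.2 g'.2
      map_zero' := by
        have := hTc 0
        rw [map_zero] at this
        exact this
      map_add' := fun g g' => hTadd g.1 g'.1 g.2 g'.2 }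
  have hsh : ∀ g : ℝ → ℝ, AnalyticAt ℝ g t0 → AnalyticAt ℝ (fun s => g (t0 + s)) 0 := by
    intro g hg
    have h1 : AnalyticAt ℝ (fun s : ℝ => t0 + s) 0 := analyticAt_const.add analyticAt_id
    have h2 : AnalyticAt ℝ g (t0 + 0) := by rwa [add_zero]
    exact AnalyticAt.comp (g := g) (f := fun s : ℝ => t0 + s) h2 h1
  have hmap : Tendsto (fun s : ℝ => t0 + s) (𝓝 0) (𝓝 t0) := by
    have h1 : Continuous fun s : ℝ => t0 + s := by fun_prop
    have := h1.tendsto 0
    rwa [add_zero] at this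
  have hmap' : Tendsto (fun t : ℝ => t - t0) (𝓝 t0) (𝓝 0) := by
    have h1 : Continuous fun s : ℝ => s - t0 := by fun_prop
    have := h1.tendsto t0
    rwa [sub_self] at this
  set τ : E := T (fun s => t0 + s) with hτ
  set S : E := T (fun s => √(f.eval (t0 + s))) with hS
  have hpolyan : ∀ P : ℝ[X], AnalyticAt ℝ (fun s => P.eval (t0 + s)) 0 := fun P =>
    hsh _ (AnalyticOnNhd.eval_polynomial P t0 (mem_univ _))
  have hid : AnalyticAt ℝ (fun s : ℝ => t0 + s) 0 := analyticAt_const.add analyticAt_id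
  have hpoly : ∀ P : ℝ[X], T (fun s => P.eval (t0 + s)) = aeval τ P := by
    intro P
    induction P using Polynomial.induction_on with
    | C x => simp only [eval_C, aeval_C]; exact hTc x
    | add P Q hP hQ =>
      simp only [eval_add, map_add]
      rw [hTadd _ _ (hpolyan P) (hpolyan Q), hP, hQ]
    | monomial n x ih =>
      have h1 : (fun s => (C x * X ^ (n + 1)).eval (t0 + s)) = fun s => (C x * X ^ n).eval (t0 + s) * (t0 + s) := by
        funext s
        rw [pow_succ, ← mul_assoc, eval_mul, eval_X]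
      rw [h1, hTmul _ _ (hpolyan _) hid, ih, pow_succ, ← mul_assoc, map_mul _ _ X, aeval_X]
  have hSan : AnalyticAt ℝ (fun s => √(f.eval (t0 + s))) 0 := hsh _ (sqrt_an f (hpos' t0 ht0'))
  have hyan : ∀ i : Fin k ⊕ Fin r, AnalyticAt ℝ (fun s => UL (k := k) f c x i (t0 + s)) 0 := fun i =>
    hsh _ (UL_an f _ _ hpos' c hc' x t0 ht0' (fun i => by linarith [hxa i, ht0.1]) i)
  have hnear : ∀ᶠ s in 𝓝 (0 : ℝ), t0 + s ∈ Ioo a b := hmap.eventually (Ioo_mem_nhds ht0.1 ht0.2)
  have hdata : Data f D τ S := by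
    refine ⟨?_, ?_, ?_, hf, by omega⟩
    · intro Q hQ
      rw [← hpoly] at hQ
      have h1 := hTinj _ (hpolyan Q) hQ
      have h2 : ∀ᶠ t in 𝓝 t0, Q.eval t = 0 := by
        filter_upwards [hmap'.eventually h1] with t ht
        simpa using ht
      exact Polynomial.eq_zero_of_infinite_isRoot Q (infinite_of_mem_nhds t0 h2)
    · rw [hτ, ← hTder _ hid]
      have h1 : deriv (fun s : ℝ => t0 + s) = fun _ => 1 := by
        funext s
        simp
      rw [h1, hTc, map_one]
    · rw [hS, ← hTmul _ _ hSan hSan, ← hpoly]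
      apply hTcongr
      filter_upwards [hnear] with s hs
      exact Real.mul_self_sqrt (h _ ⟨hs.1.le, hs.2.le⟩).le
  let y : Fin k ⊕ Fin r → E := fun i => T (fun s => UL (k := k) f c x i (t0 + s))
  have hz : ∀ i : Fin r, D (y (Sum.inr i)) * aeval τ (X + C (x i)) = 1 := by
    intro i
    have hTone : T (fun _ => 1) = 1 := by
      have := hTc 1
      rwa [map_one] at this
    show D (T (fun s => UL (k := k) f c x (Sum.inr i) (t0 + s))) * aeval τ (X + C (x i)) = 1
    rw [← hTder _ (hyan (Sum.inr i)), ← hpoly, ← hTmul _ _ (hyan (Sum.inr i)).deriv (hpolyan _), ← hTone]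
    apply hTcongr
    filter_upwards [hnear] with s hs
    have hpos1 : 0 < t0 + s + x i := by linarith [hs.1, hxa i]
    have h1 : HasDerivAt (fun s => UL (k := k) f c x (Sum.inr i) (t0 + s)) (1 / (t0 + s + x i)) s := by
      have h2 : HasDerivAt (fun s : ℝ => t0 + s + x i) 1 s := by
        simpa using ((hasDerivAt_id s).const_add t0).add_const (x i)
      exact h2.log hpos1.ne'
    rw [h1.deriv, eval_add, eval_X, eval_C]
    field_simp
  have hy : ∀ i : Fin k, D (y (Sum.inl i)) * S = aeval τ (X ^ (i : ℕ) : ℝ[X]) := by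
    intro i
    show D (T (fun s => UL (k := k) f c x (Sum.inl i) (t0 + s))) * S = _
    rw [← hTder _ (hyan (Sum.inl i)), hS, ← hTmul _ _ (hyan (Sum.inl i)).deriv hSan, ← hpoly]
    apply hTcongr
    filter_upwards [hnear] with s hs
    have hs' : t0 + s ∈ Ioo (a - ε) (b + ε) := ⟨by linarith [hs.1], by linarith [hs.2]⟩
    have h1 : HasDerivAt (fun s => UL (k := k) f c x (Sum.inl i) (t0 + s)) ((t0 + s) ^ (i : ℕ) / √(f.eval (t0 + s))) s := by
      have h2 := HI_deriv f _ _ hpos' c hc' i (t0 + s) hs'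
      exact h2.comp_const_add t0 s
    rw [h1.deriv, eval_pow, eval_X]
    have h3 : √(f.eval (t0 + s)) ≠ 0 := (Real.sqrt_pos.2 (hpos' _ hs')).ne'
    field_simp
  refine indepL' hdata hconst k r d hk x hx y hy hz p ?_
  -- the relation
  let P : (Fin k ⊕ Fin r → Fin (d + 1)) → A := fun e => ⟨fun s => (p e).eval (t0 + s), hpolyan _⟩
  let Y : Fin k ⊕ Fin r → A := fun i => ⟨fun s => UL (k := k) f c x i (t0 + s), hyan i⟩
  have h1 : Th (∑ e, P e * ∏ i, Y i ^ (e i : ℕ)) = ∑ e, aeval τ (p e) * ∏ i, y i ^ (e i : ℕ) := by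
    rw [map_sum]
    refine Finset.sum_congr rfl fun e _ => ?_
    rw [map_mul, map_prod]
    simp only [map_pow]
    rw [← hpoly]
    rfl
  rw [← h1]
  have h2 : ((∑ e, P e * ∏ i, Y i ^ (e i : ℕ) : A) : ℝ → ℝ) =
      fun s => ∑ e, (p e).eval (t0 + s) * ∏ i, UL (k := k) f c x i (t0 + s) ^ (e i : ℕ) := by
    rw [AddSubmonoidClass.coe_finsetSum]
    funext s
    rw [Finset.sum_apply]
    refine Finset.sum_congr rfl fun e _ => ?_
    rw [Subring.coe_mul, SubmonoidClass.coe_finsetProd, Pi.mul_apply, Finset.prod_apply]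
    rfl
  show T ((∑ e, P e * ∏ i, Y i ^ (e i : ℕ) : A) : ℝ → ℝ) = 0
  rw [h2]
  have h3 := hTc 0
  rw [map_zero] at h3
  rw [← h3]
  apply hTcongr
  filter_upwards [hnear] with s hs
  exact hp _ ⟨hs.1.le, hs.2.le⟩

end Pool.Agent.TH659.HY
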